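import Pool.Agent.Helper53.PT.GoalsB

/-! # MP_705522_gt, packet ENODE: one node of the energy test -/

namespace Pool.Agent.Helper55.PT

open MeasureTheory Set Filter Topology
open Pool.Agent.Helper53.PT

/-- the others: some coordinate is at least `u` -/
theorem exists_ge {n : ℕ} {t : Fin n → ℝ} (S : Finset (Fin n)) {u : ℝ} (h0 : ∀ l ∈ S, 0 ≤ t l)
    (hu : u * ∑ l ∈ S, t l ≤ ∑ l ∈ S, t l ^ 2) (hpos : 0 < ∑ l ∈ S, t l) : ∃ l ∈ S, u ≤ t l := by
  by_contra hcon
  push Not at hcon
  obtain ⟨k, hk, hkpos⟩ : ∃ k ∈ S, 0 < t k := by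
    by_contra h
    push Not at h
    have : ∑ l ∈ S, t l ≤ 0 := Finset.sum_nonpos h
    linarith
  have h1 : ∑ l ∈ S, t l ^ 2 < ∑ l ∈ S, u * t l := by
    refine Finset.sum_lt_sum (fun l hl => ?_) ⟨k, hk, ?_⟩
    · rw [pow_two]
      exact mul_le_mul_of_nonneg_right (hcon l hl).le (h0 l hl)
    · rw [pow_two]
      exact mul_lt_mul_of_pos_right (hcon k hk) hkpos
  rw [← Finset.mul_sum] at h1
  linarith

theorem gENODE : GENODE := by
  intro hRL θ z m xW xD yN hFA n N t i a1 a2 u v X α β p pB hN hSx hmax ha10 ha1 ha2 ha21 hu0 hu1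
    hus hvs hX hv hβ hexp hpB hcase1 hcase2
  obtain ⟨-, hpos, hneg, -, -, -, -, -, -, -, hlog, -⟩ := hRL θ z m xW xD yN hFA
  have hθ0 : 0 < θ := by linarith [hFA.th0]
  have hsum : ∑ l ∈ Finset.univ.erase i, t l = 1 - t i := by
    have := Finset.add_sum_erase Finset.univ t (Finset.mem_univ i)
    rw [hSx.2] at this
    linarith
  have hti1 : t i ≤ 1 := ha2.trans ha21
  have hti0 : 0 ≤ t i := hSx.1 i
  have hex : 0 < 1 - t i → ∃ l ∈ Finset.univ.erase i, u ≤ t l := fun h =>
    exists_ge (Finset.univ.erase i) (fun l _ => hSx.1 l) (by rw [hsum]; exact hus)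
      (by rw [hsum]; exact h)
  have hprod : ∏ l, f0 θ (t l * X) =
      f0 θ (t i * X) * ∏ l ∈ Finset.univ.erase i, f0 θ (t l * X) :=
    (Finset.mul_prod_erase Finset.univ (fun l => f0 θ (t l * X)) (Finset.mem_univ i)).symm
  rcases le_or_gt z (t i * X) with hA | hB
  · -- the largest argument is at least `z`
    rcases hcase2 with h2 | ⟨F, B, al, hF, hal, hR, hFB⟩
    · have h3 : t i * X = z :=
        le_antisymm ((mul_le_mul_of_nonneg_right ha2 hX.le).trans h2) hA
      rw [hprod, h3, hFA.fz, zero_mul]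
      exact hpB
    · have h3 : |f0 θ (t i * X)| ≤ F := hF _ hA (mul_le_mul_of_nonneg_right ha1 hX.le)
        (mul_le_mul_of_nonneg_right ha2 hX.le)
      have hle : ∀ l ∈ Finset.univ.erase i, t l ≤ 1 - t i := by
        intro l hl
        rw [← hsum]
        exact Finset.single_le_sum (f := t) (fun l _ => hSx.1 l) hl
      have h4 := hR n (Finset.univ.erase i) t X (by
          rcases hN with hN | hN
          · exact Or.inl hN
          · right
            rw [Finset.card_erase_of_mem (Finset.mem_univ i), Finset.card_univ, Fintype.card_fin,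
              hN]
            rfl)
        (fun l hl => ⟨hSx.1 l, le_min ((hmax l).trans ha2) ((hle l hl).trans (by linarith)),
          mul_le_mul_of_nonneg_right ((hmax l).trans ha2) hX.le⟩)
        (by rw [hsum]; linarith) (by rw [hsum]; linarith)
        (hvs.trans (by
          rw [mul_comm v]
          exact mul_le_mul_of_nonneg_right (by linarith) hv))
        (by rw [hsum]; exact hex) le_rfl le_rfl
      obtain ⟨h5, h6⟩ := h4
      rw [hprod]
      set Q := ∏ l ∈ Finset.univ.erase i, f0 θ (t l * X) with hQ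
      by_cases hal' : al
      · have h7 := h6 hal'
        calc f0 θ (t i * X) * Q ≤ |f0 θ (t i * X) * Q| := le_abs_self _
          _ = |f0 θ (t i * X)| * |Q| := abs_mul _ _
          _ ≤ F * B := mul_le_mul h3 h7 (abs_nonneg _) ((abs_nonneg _).trans h3)
          _ ≤ pB := hFB
      · have h7 : a2 * X ≤ yN := hal.resolve_left hal'
        have h8 : f0 θ (t i * X) ≤ 0 := by
          rcases hA.eq_or_lt with h | h
          · rw [← h, hFA.fz]
          · exact (hneg _ h ((mul_le_mul_of_nonneg_right ha2 hX.le).trans h7)).le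
        rcases le_or_gt 0 B with hB0 | hB0
        · calc f0 θ (t i * X) * Q = |f0 θ (t i * X)| * (-Q) := by
                rw [abs_of_nonpos h8]; ring
            _ ≤ |f0 θ (t i * X)| * B := mul_le_mul_of_nonneg_left (by linarith) (abs_nonneg _)
            _ ≤ F * B := mul_le_mul_of_nonneg_right h3 hB0
            _ ≤ pB := hFB
        · have h9 : 0 ≤ Q := by linarith
          exact (mul_nonpos_of_nonpos_of_nonneg h8 h9).trans hpB
  · -- all arguments are less than `z`
    have hw : max a1 u ≤ t i := by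
      refine max_le ha1 ?_
      rcases hti1.eq_or_lt with h | h
      · rw [h]; exact hu1
      · obtain ⟨l, -, hl⟩ := hex (by linarith)
        exact hl.trans (hmax l)
    set w := max a1 u with hwdef
    have hw0 : 0 ≤ w := hu0.trans (le_max_right _ _)
    have hwX : w * X ≤ t i * X := mul_le_mul_of_nonneg_right hw hX.le
    have hwz : w * X < z := hwX.trans_lt hB
    obtain ⟨h1, h2⟩ := hcase1.resolve_left (not_le.2 hwz)
    set c := α + β * (u * X) with hc
    have hposl : ∀ l, 0 < f0 θ (t l * X) := fun l =>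
      hpos _ (mul_nonneg (hSx.1 l) hX.le) ((mul_le_mul_of_nonneg_right (hmax l) hX.le).trans_lt hB)
    -- the others
    have hoth : ∏ l ∈ Finset.univ.erase i, f0 θ (t l * X) ≤ Real.exp (-((1 - t i) * X * c)) := by
      have e1 : ∏ l ∈ Finset.univ.erase i, f0 θ (t l * X) ≤
          ∏ l ∈ Finset.univ.erase i, Real.exp (-(α * (t l * X)) - β * (t l * X) ^ 2) :=
        Finset.prod_le_prod (fun l _ => (hposl l).le) fun l _ =>
          hexp _ (mul_nonneg (hSx.1 l) hX.le)
            ((mul_le_mul_of_nonneg_right (hmax l) hX.le).trans_lt hB)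
      refine e1.trans ?_
      rw [← Real.exp_sum]
      apply Real.exp_le_exp.2
      have e2 : ∑ l ∈ Finset.univ.erase i, (-(α * (t l * X)) - β * (t l * X) ^ 2) =
          -(α * X) * ∑ l ∈ Finset.univ.erase i, t l -
            β * X ^ 2 * ∑ l ∈ Finset.univ.erase i, t l ^ 2 := by
        rw [Finset.mul_sum, Finset.mul_sum, ← Finset.sum_sub_distrib]
        exact Finset.sum_congr rfl fun l _ => by ring
      rw [e2, hsum, hc]
      have e3 : β * X ^ 2 * (u * (1 - t i)) ≤
          β * X ^ 2 * ∑ l ∈ Finset.univ.erase i, t l ^ 2 :=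
        mul_le_mul_of_nonneg_left hus (by positivity)
      nlinarith
    -- monotonicity
    have hder : ∀ y, 0 < y → y < z → u * X ≤ y → c ≤ rr θ y / 2 := by
      intro y hy0 hyz huy
      have e1 := hexp y hy0.le hyz
      have e2 := hlog y hy0 hyz
      have e3 := hpos y hy0.le hyz
      have e4 : Real.log (f0 θ y) ≤ -(α * y) - β * y ^ 2 := by
        have := Real.log_le_log e3 e1
        rwa [Real.log_exp] at this
      have e5 : y * (α + β * y) ≤ y * (rr θ y / 2) := by nlinarith
      have e6 : α + β * y ≤ rr θ y / 2 := le_of_mul_le_mul_left e5 hy0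
      have e7 : β * (u * X) ≤ β * y := mul_le_mul_of_nonneg_left huy hβ
      linarith
    have hmono : AntitoneOn (fun y => Real.log (f0 θ y) + c * y) (Icc (w * X) (t i * X)) := by
      have hd : ∀ y, 0 ≤ y → y < z → HasDerivAt (fun y => Real.log (f0 θ y) + c * y)
          (-(f1 θ y) / 2 / f0 θ y + c) y := by
        intro y hy0 hyz
        have e1 := (hasDerivAt_f0 hθ0 hFA.th1 y).log (hpos y hy0 hyz).ne'
        have e2 : HasDerivAt (fun y => c * y) c y := by
          simpa using (hasDerivAt_id y).const_mul c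
        exact e1.add e2
      have hwX0 : 0 ≤ w * X := mul_nonneg hw0 hX.le
      refine antitoneOn_of_deriv_nonpos (convex_Icc _ _) ?_ ?_ ?_
      · intro y hy
        exact (hd y (hwX0.trans hy.1) (hy.2.trans_lt hB)).continuousAt.continuousWithinAt
      · intro y hy
        rw [interior_Icc] at hy
        exact (hd y (hwX0.trans hy.1.le)
          (hy.2.le.trans_lt hB)).differentiableAt.differentiableWithinAt
      · intro y hy
        rw [interior_Icc] at hy
        have hy0 : 0 < y := hwX0.trans_lt hy.1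
        have hyz : y < z := hy.2.le.trans_lt hB
        rw [(hd y hy0.le hyz).deriv]
        have e1 := hder y hy0 hyz ((mul_le_mul_of_nonneg_right (le_max_right a1 u) hX.le).trans
          hy.1.le)
        have e2 : -(f1 θ y) / 2 / f0 θ y = -(rr θ y / 2) := by
          unfold rr
          have := (hpos y hy0.le hyz).ne'
          field_simp
        rw [e2]
        linarith
    have h3 := hmono (left_mem_Icc.2 hwX) (right_mem_Icc.2 hwX) hwX
    simp only at h3
    have hpw : 0 < f0 θ (w * X) := hpos _ (mul_nonneg hw0 hX.le) hwz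
    have h4 : f0 θ (t i * X) * Real.exp (-((1 - t i) * X * c)) ≤
        f0 θ (w * X) * Real.exp (-((1 - w) * X * c)) := by
      have e1 : f0 θ (t i * X) = Real.exp (Real.log (f0 θ (t i * X))) :=
        (Real.exp_log (hposl i)).symm
      have e2 : f0 θ (w * X) = Real.exp (Real.log (f0 θ (w * X))) := (Real.exp_log hpw).symm
      rw [e1, e2, ← Real.exp_add, ← Real.exp_add]
      apply Real.exp_le_exp.2
      nlinarith [h3]
    calc ∏ l, f0 θ (t l * X) = f0 θ (t i * X) * ∏ l ∈ Finset.univ.erase i, f0 θ (t l * X) := hprod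
      _ ≤ f0 θ (t i * X) * Real.exp (-((1 - t i) * X * c)) :=
        mul_le_mul_of_nonneg_left hoth (hposl i).le
      _ ≤ f0 θ (w * X) * Real.exp (-((1 - w) * X * c)) := h4
      _ ≤ p * Real.exp (-((1 - w) * X * c)) :=
        mul_le_mul_of_nonneg_right h1 (Real.exp_pos _).le
      _ ≤ pB := h2

end Pool.Agent.Helper55.PT
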