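import Pool.Agent.Helper53.PT.GoalsC

/-!
# MP_705522_gt, packet PT-FLD: bit fields of `build / scanMax / scanMin / scanSum / scanPre`
-/

namespace Pool.Agent.Helper55.PT

open Pool.Agent.Helper53.PT

theorem fld_frc {α : Type} (n : ℕ) (f : ℕ → α) : N.frc n f = f n := by
  cases n <;> rfl

theorem fld_mx (a b : ℕ) : N.mx a b = max a b := by
  unfold N.mx
  cases h : Nat.ble a b with
  | true =>
    have := Nat.le_of_ble_eq_true h
    simp only [cond_true]
    omega
  | false =>
    have : ¬ a ≤ b := fun h' => by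
      rw [Nat.ble_eq_true_of_le h'] at h; exact Bool.noConfusion h
    simp only [cond_false]
    omega

theorem fld_mn (a b : ℕ) : N.mn a b = min a b := by
  unfold N.mn
  cases h : Nat.ble a b with
  | true =>
    have := Nat.le_of_ble_eq_true h
    simp only [cond_true]
    omega
  | false =>
    have : ¬ a ≤ b := fun h' => by
      rw [Nat.ble_eq_true_of_le h'] at h; exact Bool.noConfusion h
    simp only [cond_false]
    omega

/-- field `k` of width `w` -/
def gf (w T k : ℕ) : ℕ := T / 2 ^ (w * k) % 2 ^ w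

theorem fld_gf (T k : ℕ) : N.fld T k = gf 44 T k := by
  unfold N.fld gf
  show T >>> (44 * k) % 17592186044416 = _
  rw [Nat.shiftRight_eq_div_pow, show (17592186044416 : ℕ) = 2 ^ 44 by norm_num]

theorem fld6_gf (T k : ℕ) : N.fld6 T k = gf 56 T k := by
  unfold N.fld6 gf
  show T >>> (56 * k) % 72057594037927936 = _
  rw [Nat.shiftRight_eq_div_pow, show (72057594037927936 : ℕ) = 2 ^ 56 by norm_num]

/-- adding a new top field -/
theorem gf_top {w x k d : ℕ} (hx : x < 2 ^ (w * k)) (hd : d < 2 ^ w) :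
    x + d * 2 ^ (w * k) < 2 ^ (w * (k + 1)) ∧
    (x + d * 2 ^ (w * k)) / 2 ^ (w * k) = d ∧
    gf w (x + d * 2 ^ (w * k)) k = d ∧
    ∀ j < k, gf w (x + d * 2 ^ (w * k)) j = gf w x j := by
  have hp : 0 < 2 ^ (w * k) := Nat.pow_pos (by norm_num)
  have h1 : (x + d * 2 ^ (w * k)) / 2 ^ (w * k) = d := by
    rw [Nat.add_mul_div_right _ _ hp, Nat.div_eq_of_lt hx, zero_add]
  refine ⟨?_, h1, ?_, ?_⟩
  · have h2 : 2 ^ (w * (k + 1)) = 2 ^ w * 2 ^ (w * k) := by rw [← pow_add]; congr 1; ring
    rw [h2]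
    calc x + d * 2 ^ (w * k) < 2 ^ (w * k) + d * 2 ^ (w * k) := by omega
      _ = (d + 1) * 2 ^ (w * k) := by ring
      _ ≤ 2 ^ w * 2 ^ (w * k) := Nat.mul_le_mul_right _ hd
  · unfold gf
    rw [h1, Nat.mod_eq_of_lt hd]
  · intro j hj
    unfold gf
    have h3 : d * 2 ^ (w * k) = (d * 2 ^ (w * (k - j - 1))) * 2 ^ w * 2 ^ (w * j) := by
      rw [mul_assoc, mul_assoc, ← pow_add, ← pow_add]
      congr 2
      have : k = (k - j - 1) + 1 + j := by omega
      conv_lhs => rw [this]
      ring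
    rw [h3, Nat.add_mul_div_right _ _ (Nat.pow_pos (by norm_num)), Nat.add_mul_mod_self_right]

/-- adding a new bottom field -/
theorem gf_bot {w x d : ℕ} (hd : d < 2 ^ w) :
    (x * 2 ^ w + d) % 2 ^ w = d ∧ gf w (x * 2 ^ w + d) 0 = d ∧
    ∀ j, gf w (x * 2 ^ w + d) (j + 1) = gf w x j := by
  have hp : 0 < 2 ^ w := Nat.pow_pos (by norm_num)
  have h0 : (x * 2 ^ w + d) % 2 ^ w = d := by
    rw [add_comm, Nat.add_mul_mod_self_right, Nat.mod_eq_of_lt hd]
  refine ⟨h0, ?_, ?_⟩
  · unfold gf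
    rw [mul_zero, pow_zero, Nat.div_one, h0]
  · intro j
    unfold gf
    have h1 : w * (j + 1) = w + w * j := by ring
    rw [h1, pow_add, ← Nat.div_div_eq_div_mul]
    have h2 : (x * 2 ^ w + d) / 2 ^ w = x := by
      rw [add_comm, Nat.add_mul_div_right _ _ hp, Nat.div_eq_of_lt hd, zero_add]
    rw [h2]

theorem build_succ (f : ℕ → ℕ) (n : ℕ) :
    N.build f (n + 1) = N.build f n + f n * 2 ^ (44 * n) := by
  show Nat.add (N.build f n) (Nat.shiftLeft (f n) (Nat.mul 44 n)) = _
  show N.build f n + (f n) <<< (44 * n) = _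
  rw [Nat.shiftLeft_eq]

theorem build_facts (f : ℕ → ℕ) : ∀ n : ℕ, (∀ j < n, f j < 2 ^ 44) →
    N.build f n < 2 ^ (44 * n) ∧ ∀ k < n, gf 44 (N.build f n) k = f k := by
  intro n
  induction n with
  | zero =>
    intro _
    refine ⟨?_, fun k hk => absurd hk (Nat.not_lt_zero _)⟩
    show (0 : ℕ) < _
    exact Nat.pow_pos (by norm_num)
  | succ n ih =>
    intro h
    obtain ⟨h1, h2⟩ := ih (fun j hj => h j (by omega))
    obtain ⟨g1, -, g3, g4⟩ := gf_top h1 (h n (by omega))
    rw [build_succ]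
    refine ⟨g1, fun k hk => ?_⟩
    rcases Nat.lt_succ_iff_lt_or_eq.mp hk with hk' | rfl
    · rw [g4 k hk', h2 k hk']
    · exact g3

/-- suffix scan: step function `c` (max or min), values `g 0, g 1, ..` added at the bottom -/
def sc (c : ℕ → ℕ → ℕ) (g : ℕ → ℕ) (top n : ℕ) : ℕ :=
  Nat.rec top (fun j ih => Nat.add (Nat.shiftLeft ih 44)
    (c (Nat.mod ih 17592186044416) (g j))) n

theorem sc_succ (c : ℕ → ℕ → ℕ) (g : ℕ → ℕ) (top n : ℕ) :
    sc c g top (n + 1) = sc c g top n * 2 ^ 44 + c (sc c g top n % 2 ^ 44) (g n) := by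
  show (sc c g top n) <<< 44 + c (sc c g top n % 17592186044416) (g n) = _
  rw [Nat.shiftLeft_eq, show (17592186044416 : ℕ) = 2 ^ 44 by norm_num]

theorem sc_facts (c : ℕ → ℕ → ℕ) (hc : ∀ a b, a < 2 ^ 44 → b < 2 ^ 44 → c a b < 2 ^ 44)
    (g : ℕ → ℕ) (top : ℕ) (ht : top < 2 ^ 44) : ∀ n : ℕ, (∀ j < n, g j < 2 ^ 44) →
    gf 44 (sc c g top n) n = top ∧
    ∀ k < n, gf 44 (sc c g top n) k = c (gf 44 (sc c g top n) (k + 1)) (g (n - 1 - k)) := by
  intro n
  induction n with
  | zero =>
    intro _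
    refine ⟨?_, fun k hk => absurd hk (Nat.not_lt_zero _)⟩
    show gf 44 top 0 = top
    unfold gf
    rw [mul_zero, pow_zero, Nat.div_one, Nat.mod_eq_of_lt ht]
  | succ n ih =>
    intro h
    obtain ⟨h1, h2⟩ := ih (fun j hj => h j (by omega))
    have hd : c (sc c g top n % 2 ^ 44) (g n) < 2 ^ 44 :=
      hc _ _ (Nat.mod_lt _ (by norm_num)) (h n (by omega))
    obtain ⟨g1, g2, g3⟩ := gf_bot (x := sc c g top n) hd
    rw [sc_succ]
    refine ⟨?_, ?_⟩
    · rw [g3, h1]
    · intro k hk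
      rw [g3]
      cases k with
      | zero =>
        rw [g2]
        have : n + 1 - 1 - 0 = n := by omega
        rw [this]
        congr 1
        unfold gf
        rw [mul_zero, pow_zero, Nat.div_one]
      | succ k =>
        rw [g3, h2 k (by omega)]
        have : n + 1 - 1 - (k + 1) = n - 1 - k := by omega
        rw [this]

theorem scanMax_sc (f : ℕ → ℕ) (top n : ℕ) :
    N.scanMax f top n = sc max (fun j => f (n - 1 - j)) top n := by
  unfold N.scanMax sc
  have : N.mx = max := by funext a b; exact fld_mx a b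
  rw [this]
  rfl

theorem scanMin_sc (f : ℕ → ℕ) (top n : ℕ) :
    N.scanMin f top n = sc min (fun j => f (n - 1 - j)) top n := by
  unfold N.scanMin sc
  have : N.mn = min := by funext a b; exact fld_mn a b
  rw [this]
  rfl

theorem scanSum_succ (f : ℕ → ℕ) (n : ℕ) : N.scanSum f (n + 1) =
    N.scanSum f n + (N.scanSum f n / 2 ^ (56 * n) + f n) * 2 ^ (56 * (n + 1)) := by
  show N.scanSum f n + ((N.scanSum f n) >>> (56 * n) + f n) <<< (56 * (n + 1)) = _
  rw [Nat.shiftLeft_eq, Nat.shiftRight_eq_div_pow]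

theorem scanSum_facts (f : ℕ → ℕ) : ∀ n : ℕ, ∑ j ∈ Finset.range n, f j < 2 ^ 56 →
    N.scanSum f n < 2 ^ (56 * (n + 1)) ∧
    N.scanSum f n / 2 ^ (56 * n) = ∑ j ∈ Finset.range n, f j ∧
    ∀ k ≤ n, gf 56 (N.scanSum f n) k = ∑ j ∈ Finset.range k, f j := by
  intro n
  induction n with
  | zero =>
    intro _
    refine ⟨?_, ?_, ?_⟩
    · show (0 : ℕ) < _
      exact Nat.pow_pos (by norm_num)
    · show 0 / _ = _
      simp
    · intro k hk
      obtain rfl : k = 0 := by omega
      show gf 56 0 0 = _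
      simp [gf]
  | succ n ih =>
    intro h
    have hs : ∑ j ∈ Finset.range n, f j < 2 ^ 56 := by
      rw [Finset.sum_range_succ] at h; omega
    obtain ⟨h1, h2, h3⟩ := ih hs
    have hd : N.scanSum f n / 2 ^ (56 * n) + f n = ∑ j ∈ Finset.range (n + 1), f j := by
      rw [Finset.sum_range_succ, h2]
    rw [scanSum_succ, hd]
    obtain ⟨g1, g2, g3, g4⟩ := gf_top h1 h
    refine ⟨g1, g2, fun k hk => ?_⟩
    rcases Nat.lt_or_eq_of_le hk with hk' | rfl
    · rw [g4 k hk', h3 k (by omega)]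
    · exact g3

theorem allB_iff (p : ℕ → Bool) : ∀ n : ℕ, N.allB p n = true ↔ ∀ k < n, p k = true := by
  intro n
  induction n with
  | zero => exact ⟨fun _ k hk => absurd hk (Nat.not_lt_zero _), fun _ => rfl⟩
  | succ n ih =>
    have h0 : N.allB p (n + 1) = cond (p n) (N.allB p n) false := rfl
    rw [h0]
    cases hp : p n with
    | true =>
      rw [cond_true, ih]
      constructor
      · intro h k hk
        rcases Nat.lt_succ_iff_lt_or_eq.mp hk with hk' | rfl
        · exact h k hk'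
        · exact hp
      · intro h k hk
        exact h k (by omega)
    | false =>
      rw [cond_false]
      constructor
      · intro h; exact Bool.noConfusion h
      · intro h
        have := h n (by omega)
        rw [hp] at this
        exact Bool.noConfusion this

theorem scanPre_succ (f : ℕ → ℕ) (c n : ℕ) : N.scanPre f c (n + 1) =
    N.scanPre f c n + (min (if n = 0 then c else N.scanPre f c n / 2 ^ (44 * (n - 1))) (f n)) *
      2 ^ (44 * n) := by
  show N.scanPre f c n + (N.mn (cond (Nat.beq n 0) c ((N.scanPre f c n) >>> (44 * (n - 1)))) (f n)) <<<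
    (44 * n) = _
  rw [Nat.shiftLeft_eq, Nat.shiftRight_eq_div_pow, fld_mn]
  cases n with
  | zero => rfl
  | succ n => rfl

theorem scanPre_facts (f : ℕ → ℕ) (c : ℕ) (hc : c < 2 ^ 44) : ∀ n : ℕ,
    N.scanPre f c n < 2 ^ (44 * n) ∧
    (0 < n → N.scanPre f c n / 2 ^ (44 * (n - 1)) = gf 44 (N.scanPre f c n) (n - 1)) ∧
    ∀ k < n, gf 44 (N.scanPre f c n) k =
      min (if k = 0 then c else gf 44 (N.scanPre f c n) (k - 1)) (f k) ∧
      gf 44 (N.scanPre f c n) k ≤ c := by
  intro n
  induction n with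
  | zero =>
    refine ⟨?_, fun h => absurd h (Nat.lt_irrefl _), fun k hk => absurd hk (Nat.not_lt_zero _)⟩
    show (0 : ℕ) < _
    exact Nat.pow_pos (by norm_num)
  | succ n ih =>
    obtain ⟨h1, h2, h3⟩ := ih
    have hv : (if n = 0 then c else N.scanPre f c n / 2 ^ (44 * (n - 1))) =
        (if n = 0 then c else gf 44 (N.scanPre f c n) (n - 1)) := by
      split_ifs with h0
      · rfl
      · exact h2 (by omega)
    have hle : (if n = 0 then c else gf 44 (N.scanPre f c n) (n - 1)) ≤ c := by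
      split_ifs with h0
      · exact le_refl _
      · exact (h3 (n - 1) (by omega)).2
    have hd : min (if n = 0 then c else gf 44 (N.scanPre f c n) (n - 1)) (f n) < 2 ^ 44 :=
      lt_of_le_of_lt (le_trans (min_le_left _ _) hle) hc
    rw [scanPre_succ, hv]
    generalize hm : min (if n = 0 then c else gf 44 (N.scanPre f c n) (n - 1)) (f n) = m at hd ⊢
    have hmc : m ≤ c := by rw [← hm]; exact le_trans (min_le_left _ _) hle
    obtain ⟨g1, g2, g3, g4⟩ := gf_top h1 hd
    refine ⟨g1, fun _ => ?_, fun k hk => ?_⟩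
    · have : n + 1 - 1 = n := by omega
      rw [this, g2, g3]
    · rcases Nat.lt_succ_iff_lt_or_eq.mp hk with hk' | hk'
      · rw [g4 k hk']
        refine ⟨?_, (h3 k hk').2⟩
        rw [(h3 k hk').1]
        by_cases h0 : k = 0
        · simp only [if_pos h0]
        · simp only [if_neg h0]
          rw [g4 (k - 1) (by omega)]
      · subst hk'
        rw [g3]
        refine ⟨?_, hmc⟩
        by_cases h0 : k = 0
        · rw [if_pos h0] at hm ⊢
          exact hm.symm
        · rw [if_neg h0] at hm ⊢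
          rw [g4 (k - 1) (by omega)]
          exact hm.symm

theorem gFLD : GFLD := by
  refine ⟨?_, ?_, ?_, ?_, ?_, ?_, ?_⟩
  · intro f n h k hk
    rw [fld_gf]
    exact (build_facts f n h).2 k hk
  · intro f top n ht h
    rw [scanMax_sc]
    obtain ⟨h1, h2⟩ := sc_facts max (fun a b ha hb => max_lt ha hb) (fun j => f (n - 1 - j)) top ht n
      (fun j hj => h _ (by omega))
    refine ⟨by rw [fld_gf]; exact h1, fun k hk => ?_⟩
    rw [fld_gf, fld_gf, h2 k hk]
    have : n - 1 - (n - 1 - k) = k := by omega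
    show max _ (f (n - 1 - (n - 1 - k))) = _
    rw [this]
  · intro f top n ht h
    rw [scanMin_sc]
    obtain ⟨h1, h2⟩ := sc_facts min (fun a b ha hb => lt_of_le_of_lt (min_le_left _ _) ha)
      (fun j => f (n - 1 - j)) top ht n (fun j hj => h _ (by omega))
    refine ⟨by rw [fld_gf]; exact h1, fun k hk => ?_⟩
    rw [fld_gf, fld_gf, h2 k hk]
    have : n - 1 - (n - 1 - k) = k := by omega
    show min _ (f (n - 1 - (n - 1 - k))) = _
    rw [this]
  · intro f n h k hk
    rw [fld6_gf]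
    exact (scanSum_facts f n h).2.2 k hk
  · exact allB_iff
  · intro f c n hc k hk
    rw [fld_gf, fld_gf]
    exact ((scanPre_facts f c hc n).2.2 k hk).1
  · intro α n f
    exact fld_frc n f

end Pool.Agent.Helper55.PT
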